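import Mathlib

/-! The `d`-sphere graph: definitions. -/

open Set Metric

namespace V11258.CG

/-- The Euclidean space `ℝ^{d+1}`. -/
abbrev E (d : ℕ) : Type := EuclideanSpace ℝ (Fin (d + 1))

/-- The affine hyperplane `{x | ⟨n, x⟩ = c}` (for `n ≠ 0`). -/
def hyp {d : ℕ} (n : E d) (c : ℝ) : Set (E d) := {x | inner ℝ n x = c}

/-- The closed unit ball `𝔻^d`. -/
abbrev Dball (d : ℕ) : Set (E d) := closedBall 0 1

/-- The open unit ball. -/
abbrev Uball (d : ℕ) : Set (E d) := ball 0 1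

/-- The members of `H_d`: the sets `𝔻^d ∩ H` for affine hyperplanes `H` meeting the open ball. -/
def IsDisc (d : ℕ) (A : Set (E d)) : Prop :=
  ∃ (n : E d) (c : ℝ), n ≠ 0 ∧ (hyp n c ∩ Uball d).Nonempty ∧ A = Dball d ∩ hyp n c

/-- The vertices of the `d`-sphere graph. -/
def Vtx (d : ℕ) : Type := {A : Set (E d) // IsDisc d A}

/-- The `d`-sphere graph: the intersection graph of `H_d`. -/
def sphereGraph (d : ℕ) : SimpleGraph (Vtx d) where
  Adj A B := A ≠ B ∧ (A.1 ∩ B.1).Nonempty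
  symm := ⟨fun A B h => ⟨h.1.symm, by rw [inter_comm]; exact h.2⟩⟩
  loopless := ⟨fun A h => h.1 rfl⟩

/-- The unit sphere `𝕊^d`. -/
abbrev Sph (d : ℕ) : Type := sphere (0 : E d) 1

end V11258.CG
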