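import Pool.Agent.V11258.CG.Points

/-! The points of the sphere are recovered from the graph. -/

open Set Metric Filter
open scoped Topology

namespace V11258.CG

/-- The vertices through a point. -/
def Kp (p : E 2) : Set (Vtx 2) := {A | p ∈ A.1}

/-- A property of sets of vertices expressed by the graph alone. -/
structure PropQ (K : Set (Vtx 2)) : Prop where
  clique : ∀ A ∈ K, ∀ B ∈ K, A ≠ B → (sphereGraph 2).Adj A B
  avoid : ∀ X : Finset (Vtx 2), (∀ x ∈ X, x ∉ K) → ∃ c ∈ K, ∀ x ∈ X, ¬ (sphereGraph 2).Adj c x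

lemma adj_def {A B : Vtx 2} : (sphereGraph 2).Adj A B ↔ A ≠ B ∧ (A.1 ∩ B.1).Nonempty := Iff.rfl

lemma PropQ.transport {K : Set (Vtx 2)} (h : PropQ K) (φ : sphereGraph 2 ≃g sphereGraph 2) :
    PropQ {A | φ.symm A ∈ K} := by
  classical
  constructor
  · intro A hA B hB hAB
    have h1 := h.clique _ hA _ hB (fun h' => hAB (φ.symm.injective h'))
    exact φ.symm.map_adj_iff.1 h1
  · intro X hX
    obtain ⟨c, hc, hc'⟩ := h.avoid (X.image φ.symm) (by
      intro x hx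
      obtain ⟨y, hy, rfl⟩ := Finset.mem_image.1 hx
      exact hX y hy)
    refine ⟨φ c, ?_, ?_⟩
    · show φ.symm (φ c) ∈ K
      rw [RelIso.symm_apply_apply]; exact hc
    · intro x hx hadj
      apply hc' (φ.symm x) (Finset.mem_image_of_mem _ hx)
      have := φ.symm.map_adj_iff.2 hadj
      rwa [RelIso.symm_apply_apply] at this

lemma propQ_Kp {p : E 2} (hp : ‖p‖ = 1) : PropQ (Kp p) := by
  constructor
  · intro A hA B hB hAB
    exact ⟨hAB, p, hA, hB⟩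
  · intro X hX
    have hopen : IsOpen (⋂ x ∈ X, (x.1)ᶜ) :=
      isOpen_biInter_finset fun x _ => (isClosed_disc x.2).isOpen_compl
    have hmem : p ∈ ⋂ x ∈ X, (x.1)ᶜ := by
      simp only [mem_iInter]
      intro x hx
      exact hX x hx
    obtain ⟨ε, hε, hball⟩ := Metric.isOpen_iff.1 hopen p hmem
    obtain ⟨A, hA, hA'⟩ := small_disc hp hε
    refine ⟨A, hA, ?_⟩
    rintro x hx ⟨-, y, hy1, hy2⟩
    have := hball (hA' hy1)
    simp only [mem_iInter] at this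
    exact this x hx hy2

lemma Kp_inj {p q : E 2} (hp : ‖p‖ = 1) (h : ∀ A : Vtx 2, p ∈ A.1 → q ∈ A.1) : p = q := by
  by_contra hne
  obtain ⟨A, hA, hA'⟩ := small_disc hp (dist_pos.2 hne)
  have := hA' (h A hA)
  rw [mem_ball, dist_comm] at this
  exact lt_irrefl _ this

/-- The coordinate discs. -/
noncomputable def L (i : Fin 3) (t : ℝ) : Vtx 2 :=
  ⟨closedBall 0 1 ∩ hyp (EuclideanSpace.single i (1 : ℝ)) (if |t| < 1 then t else 0), by
    refine isDisc_iff.2 ⟨_, _, ?_, rfl⟩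
    have : ‖(EuclideanSpace.single i (1 : ℝ) : E 2)‖ = 1 := by simp
    rw [this]
    split_ifs with h
    · rw [abs_lt] at h; nlinarith
    · norm_num⟩

lemma mem_L {i : Fin 3} {t : ℝ} (ht : |t| < 1) {x : E 2} : x ∈ (L i t).1 ↔ ‖x‖ ≤ 1 ∧ x i = t := by
  have : (L i t).1 = closedBall 0 1 ∩ hyp (EuclideanSpace.single i (1 : ℝ)) t := by
    unfold L; simp only [if_pos ht]
  rw [this, mem_disc]
  have h2 : inner ℝ (EuclideanSpace.single i (1 : ℝ) : E 2) x = x i := by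
    rw [EuclideanSpace.inner_single_left]; simp
  rw [h2]

lemma coord_le {x : E 2} (hx : ‖x‖ ≤ 1) (i : Fin 3) : |x i| ≤ 1 := by
  have := PiLp.norm_apply_le x i
  rw [Real.norm_eq_abs] at this
  exact this.trans hx

lemma disc_norm_le {A : Vtx 2} {x : E 2} (hx : x ∈ A.1) : ‖x‖ ≤ 1 := by
  obtain ⟨n, c, -, -, h⟩ := A.2
  rw [h, mem_disc] at hx
  exact hx.1

lemma interm {A : Vtx 2} {x y : E 2} (hx : x ∈ A.1) (hy : y ∈ A.1) (i : Fin 3) {t : ℝ}
    (h1 : x i ≤ t) (h2 : t ≤ y i) (hlt : x i < y i) : ∃ z ∈ A.1, z i = t := by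
  have hd : 0 < y i - x i := by linarith
  refine ⟨(1 - (t - x i) / (y i - x i)) • x + ((t - x i) / (y i - x i)) • y, ?_, ?_⟩
  · apply convex_disc A.2 hx hy
    · rw [sub_nonneg, div_le_one hd]; linarith
    · exact div_nonneg (by linarith) hd.le
    · ring
  · simp only [PiLp.add_apply, PiLp.smul_apply, smul_eq_mul]
    field_simp
    ring

lemma small_member {K : Set (Vtx 2)} (h : PropQ K) {N : ℕ} (hN : 0 < N) :
    ∃ c ∈ K, ∀ x ∈ c.1, ∀ y ∈ c.1, ∀ i, y i - x i < 3 / N := by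
  classical
  let X : Finset (Vtx 2) := (((Finset.univ : Finset (Fin 3)) ×ˢ Finset.Ioo 0 (2 * N)).image
    (fun ik => L ik.1 (-1 + (ik.2 : ℝ) / N))).filter (· ∉ K)
  obtain ⟨c, hcK, hc⟩ := h.avoid X (fun x hx => (Finset.mem_filter.1 hx).2)
  refine ⟨c, hcK, fun x hx y hy i => ?_⟩
  by_contra hge
  rw [not_lt] at hge
  have hN' : (0 : ℝ) < N := by exact_mod_cast hN
  have hx1 := abs_le.1 (coord_le (disc_norm_le hx) i)
  have hy1 := abs_le.1 (coord_le (disc_norm_le hy) i)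
  have h3 : 3 ≤ (y i - x i) * N := by rwa [div_le_iff₀ hN'] at hge
  have hlt : x i < y i := by
    by_contra hc'
    rw [not_lt] at hc'
    nlinarith
  have claim : ∀ j : ℕ, 0 < j → x i ≤ -1 + (j : ℝ) / N → -1 + (j : ℝ) / N < y i →
      |-1 + (j : ℝ) / N| < 1 ∧ L i (-1 + (j : ℝ) / N) ∈ K := by
    intro j hj h1 h2
    have hj' : (0 : ℝ) < j := by exact_mod_cast hj
    have hpos : 0 < (j : ℝ) / N := div_pos hj' hN'
    have habs : |-1 + (j : ℝ) / N| < 1 := by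
      rw [abs_lt]; constructor <;> linarith [hy1.2]
    refine ⟨habs, ?_⟩
    by_contra hK
    have hj2 : j < 2 * N := by
      have : (j : ℝ) / N < 2 := by linarith [hy1.2]
      rw [div_lt_iff₀ hN'] at this
      exact_mod_cast this
    have hmem : L i (-1 + (j : ℝ) / N) ∈ X := by
      refine Finset.mem_filter.2 ⟨Finset.mem_image.2 ⟨(i, j), ?_, rfl⟩, hK⟩
      rw [Finset.mem_product]
      exact ⟨Finset.mem_univ _, Finset.mem_Ioo.2 ⟨hj, hj2⟩⟩
    apply hc _ hmem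
    refine ⟨fun he => hK (he ▸ hcK), ?_⟩
    obtain ⟨z, hz, hz'⟩ := interm hx hy i h1 h2.le hlt
    exact ⟨z, hz, (mem_L habs).2 ⟨disc_norm_le hz, hz'⟩⟩
  set m := ⌊(x i + 1) * N⌋₊ with hm
  have hm0 : 0 ≤ (x i + 1) * N := by
    apply mul_nonneg _ hN'.le
    linarith [hx1.1]
  have m1 : (m : ℝ) ≤ (x i + 1) * N := Nat.floor_le hm0
  have m2 : (x i + 1) * N < m + 1 := Nat.lt_floor_add_one _
  have e1 : x i ≤ -1 + ((m + 1 : ℕ) : ℝ) / N := by
    rw [← sub_le_iff_le_add', le_div_iff₀ hN']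
    push_cast; linarith
  have e2 : -1 + ((m + 2 : ℕ) : ℝ) / N < y i := by
    rw [← lt_sub_iff_add_lt', div_lt_iff₀ hN']
    push_cast; linarith
  have e3 : -1 + ((m + 1 : ℕ) : ℝ) / N < -1 + ((m + 2 : ℕ) : ℝ) / N := by
    have : ((m + 1 : ℕ) : ℝ) / N < ((m + 2 : ℕ) : ℝ) / N := by
      apply div_lt_div_of_pos_right _ hN'
      push_cast; linarith
    linarith
  obtain ⟨a1, k1⟩ := claim (m + 1) (by omega) e1 (e3.trans e2)
  obtain ⟨a2, k2⟩ := claim (m + 2) (by omega) (e1.trans e3.le) e2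
  have hne : L i (-1 + ((m + 1 : ℕ) : ℝ) / N) ≠ L i (-1 + ((m + 2 : ℕ) : ℝ) / N) := by
    intro he
    obtain ⟨z, hz⟩ := disc_nonempty (L i (-1 + ((m + 1 : ℕ) : ℝ) / N)).2
    have hz2 := hz
    rw [he] at hz2
    rw [mem_L a1] at hz
    rw [mem_L a2] at hz2
    linarith [hz.2, hz2.2]
  obtain ⟨-, z, hz, hz2⟩ := h.clique _ k1 _ k2 hne
  rw [mem_L a1] at hz
  rw [mem_L a2] at hz2
  linarith [hz.2, hz2.2]

lemma dist_small {x y : E 2} {N : ℕ} (hN : 0 < N) (h1 : ∀ i, y i - x i < 3 / N)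
    (h2 : ∀ i, x i - y i < 3 / N) : dist x y ≤ 9 / N := by
  have hN' : (0 : ℝ) < N := by exact_mod_cast hN
  rw [dist_eq_norm]
  apply le_of_sq_le_sq _ (by positivity)
  rw [EuclideanSpace.norm_sq_eq, Fin.sum_univ_three]
  have key : ∀ i, ‖(x - y) i‖ ^ 2 ≤ (3 / N) ^ 2 := by
    intro i
    rw [Real.norm_eq_abs, sq_abs, PiLp.sub_apply]
    have := h1 i; have := h2 i
    apply sq_le_sq'  <;> linarith
  have k0 := key 0
  have k1 := key 1
  have k2 := key 2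
  have : (9 / (N : ℝ)) ^ 2 = 9 * (3 / N) ^ 2 := by ring
  rw [this]
  have := sq_nonneg (3 / (N : ℝ))
  linarith

lemma exists_point {K : Set (Vtx 2)} (h : PropQ K) : ∃ p : E 2, ‖p‖ = 1 ∧ K ⊆ Kp p := by
  choose c hcK hc using fun n : ℕ => small_member h (N := n + 1) n.succ_pos
  choose x hx1 hx2 hx3 using fun n : ℕ => meet_sphere (c n).2 (c n).2
    (by rw [inter_self]; exact disc_nonempty (c n).2)
  obtain ⟨p, hp, φ, hφ, hlim⟩ := (isCompact_sphere (0 : E 2) 1).tendsto_subseq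
    (x := x) (fun n => by rw [mem_sphere_zero_iff_norm]; exact hx1 n)
  refine ⟨p, by rwa [mem_sphere_zero_iff_norm] at hp, fun A hA => ?_⟩
  have hy : ∀ n, ∃ y ∈ A.1, dist (x n) y ≤ 9 / ((n + 1 : ℕ) : ℝ) := by
    intro n
    by_cases he : A = c n
    · refine ⟨x n, he ▸ hx2 n, ?_⟩
      rw [dist_self]; positivity
    · obtain ⟨-, y, hy1, hy2⟩ := h.clique _ hA _ (hcK n) he
      exact ⟨y, hy1, dist_small n.succ_pos (hc n _ (hx2 n) _ hy2) (hc n _ hy2 _ (hx2 n))⟩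
  choose y hyA hyd using hy
  have hlim2 : Tendsto (y ∘ φ) atTop (𝓝 p) := by
    refine tendsto_of_tendsto_of_dist hlim ?_
    have h9 : Tendsto (fun n : ℕ => 9 / ((n + 1 : ℕ) : ℝ)) atTop (𝓝 0) := by
      have := (tendsto_add_atTop_iff_nat (f := fun n : ℕ => 9 / (n : ℝ)) 1).2
        (tendsto_const_div_atTop_nhds_zero_nat 9)
      exact this
    exact squeeze_zero (fun n => dist_nonneg) (fun n => hyd (φ n)) (h9.comp hφ.tendsto_atTop)
  exact (isClosed_disc A.2).mem_of_tendsto hlim2 (Eventually.of_forall fun n => hyA _)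

lemma exists_eq_Kp {K : Set (Vtx 2)} (h : PropQ K) : ∃ p : E 2, ‖p‖ = 1 ∧ K = Kp p := by
  obtain ⟨p, hp, hK⟩ := exists_point h
  refine ⟨p, hp, hK.antisymm fun A hA => ?_⟩
  by_contra hAK
  obtain ⟨c, hc, hc'⟩ := h.avoid {A} (by simpa using hAK)
  apply hc' A (Finset.mem_singleton_self A)
  exact ⟨fun he => hAK (he ▸ hc), p, hK hc, hA⟩

/-- Automorphisms act on the points of the sphere. -/
lemma act (φ : sphereGraph 2 ≃g sphereGraph 2) {p : E 2} (hp : ‖p‖ = 1) :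
    ∃ q : E 2, ‖q‖ = 1 ∧ ∀ A : Vtx 2, p ∈ A.1 ↔ q ∈ (φ A).1 := by
  obtain ⟨q, hq, hK⟩ := exists_eq_Kp ((propQ_Kp hp).transport φ)
  refine ⟨q, hq, fun A => ?_⟩
  have h1 : φ A ∈ {A | φ.symm A ∈ Kp p} ↔ φ A ∈ Kp q := by rw [hK]
  have h2 : φ A ∈ {A | φ.symm A ∈ Kp p} ↔ p ∈ A.1 := by
    show φ.symm (φ A) ∈ Kp p ↔ _
    rw [RelIso.symm_apply_apply]; rfl
  rw [← h2, h1]; rfl

end V11258.CG
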