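import Pool.Agent.V11258.CG.Main

/-! The two groups as named types. -/

namespace V11258.CG

/-- The unit sphere `𝕊^d` as a space. -/
def Sphere (d : ℕ) : Type := Sph d

instance topSphere (d : ℕ) : TopologicalSpace (Sphere d) :=
  inferInstanceAs (TopologicalSpace (Sph d))

/-- `Aut(𝕊^d)`: the group of all homeomorphisms of the sphere. -/
def AutSphere (d : ℕ) : Type := Sphere d ≃ₜ Sphere d

noncomputable instance grpSphere (d : ℕ) : Group (AutSphere d) :=
  inferInstanceAs (Group (Sphere d ≃ₜ Sphere d))

/-- `Aut(𝒞^d)`: the group of automorphisms of the `d`-sphere graph. -/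
def AutGraph (d : ℕ) : Type := sphereGraph d ≃g sphereGraph d

noncomputable instance grpGraph (d : ℕ) : Group (AutGraph d) :=
  inferInstanceAs (Group (sphereGraph d ≃g sphereGraph d))

theorem not_iso' : IsEmpty (AutSphere 2 ≃* AutGraph 2) := not_iso

end V11258.CG
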