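import Pool.Agent.V11258.CG.Defs

/-! Homeomorphisms of the sphere. -/

open Complex OnePoint Set Metric
open scoped OnePoint

namespace V11258.CG

/-- Rotation-dilation of the plane. -/
noncomputable def mulH (u : ℂ) (hu : u ≠ 0) : ℂ ≃ₜ ℂ := Homeomorph.mulLeft₀ u hu

/-- The twist `z ↦ z e^{i|z|}`. -/
noncomputable def twist : ℂ ≃ₜ ℂ where
  toFun z := z * exp ((‖z‖ : ℂ) * I)
  invFun z := z * exp (-(‖z‖ : ℂ) * I)
  left_inv z := by
    have : ‖exp ((‖z‖ : ℂ) * I)‖ = 1 := norm_exp_ofReal_mul_I _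
    simp only [norm_mul, this, mul_one]
    rw [mul_assoc, ← exp_add]
    simp
  right_inv z := by
    have : ‖exp (-(‖z‖ : ℂ) * I)‖ = 1 := by
      have := norm_exp_ofReal_mul_I (-‖z‖)
      rwa [ofReal_neg] at this
    simp only [norm_mul, this, mul_one]
    rw [mul_assoc, ← exp_add]
    simp
  continuous_toFun := by fun_prop
  continuous_invFun := by fun_prop

/-- The one point compactification of `ℂ` is the 2-sphere. -/
noncomputable def eS : OnePoint ℂ ≃ₜ Sph 2 :=
  onePointEquivSphereOfFinrankEq (ι := Fin 3) (V := ℂ) (by simp)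

/-- Extension of homeomorphisms of the plane to the sphere. -/
noncomputable def Φ : (ℂ ≃ₜ ℂ) →* (Sph 2 ≃ₜ Sph 2) where
  toFun h := eS.symm.trans (h.onePointCongr.trans eS)
  map_one' := by
    ext1 x
    have : (Homeomorph.onePointCongr (1 : ℂ ≃ₜ ℂ)) (eS.symm x) = eS.symm x := by
      generalize eS.symm x = p
      induction p using OnePoint.rec with
      | infty => rfl
      | coe z => rfl
    show eS ((Homeomorph.onePointCongr (1 : ℂ ≃ₜ ℂ)) (eS.symm x)) = x
    rw [this]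
    exact eS.apply_symm_apply x
  map_mul' h k := by
    ext1 x
    show eS _ = eS ((Homeomorph.onePointCongr h) (eS.symm (eS _)))
    rw [Homeomorph.symm_apply_apply]
    congr 1
    generalize eS.symm x = p
    induction p using OnePoint.rec with
    | infty => rfl
    | coe z => rfl

lemma Φ_inj : Function.Injective Φ := by
  intro h k hhk
  ext1 z
  have h1 := congrArg (fun e : Sph 2 ≃ₜ Sph 2 => eS.symm (e (eS (z : OnePoint ℂ)))) hhk
  have h2 : ∀ h : ℂ ≃ₜ ℂ, eS.symm (Φ h (eS (z : OnePoint ℂ))) = ((h z : ℂ) : OnePoint ℂ) := by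
    intro h
    show eS.symm (eS ((Homeomorph.onePointCongr h) (eS.symm (eS (z : OnePoint ℂ))))) = _
    rw [Homeomorph.symm_apply_apply, Homeomorph.symm_apply_apply]
    rfl
  simp only [h2] at h1
  exact OnePoint.coe_eq_coe.1 h1

lemma twist_apply (z : ℂ) : twist z = z * exp ((‖z‖ : ℂ) * I) := rfl

lemma norm_twist (z : ℂ) : ‖twist z‖ = ‖z‖ := by
  rw [twist_apply, norm_mul, norm_exp_ofReal_mul_I, mul_one]

lemma twist4 (z : ℂ) : (twist ^ 4) z = z * exp (4 * (‖z‖ : ℂ) * I) := by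
  have : (twist ^ 4) z = twist (twist (twist (twist z))) := rfl
  rw [this, twist_apply (twist (twist (twist z))), norm_twist, norm_twist, norm_twist,
    twist_apply (twist (twist z)), norm_twist, norm_twist, twist_apply (twist z), norm_twist,
    twist_apply z]
  rw [mul_assoc, mul_assoc, mul_assoc, ← exp_add, ← exp_add, ← exp_add]
  ring_nf

lemma mulH_apply (u : ℂ) (hu : u ≠ 0) (z : ℂ) : mulH u hu z = u * z := rfl

lemma mulH4 (u : ℂ) (hu : u ≠ 0) (z : ℂ) : (mulH u hu ^ 4) z = u ^ 4 * z := by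
  have : (mulH u hu ^ 4) z = u * (u * (u * (u * z))) := rfl
  rw [this]; ring

theorem exists_homeos : ∃ a b c : Sph 2 ≃ₜ Sph 2, Commute c a ∧ Commute c b ∧ c ^ 4 ≠ 1 ∧
    a ^ 4 * b ^ 4 ≠ b ^ 4 * a ^ 4 := by
  let u : ℂ := exp (((Real.pi / 4 : ℝ) : ℂ) * I)
  have hu : u ≠ 0 := exp_ne_zero _
  have hun : ‖u‖ = 1 := norm_exp_ofReal_mul_I _
  have hu4 : u ^ 4 = -1 := by
    rw [← exp_nat_mul, ← exp_pi_mul_I]
    congr 1
    push_cast
    ring
  let a0 := mulH 2 two_ne_zero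
  let c0 := mulH u hu
  refine ⟨Φ a0, Φ twist, Φ c0, ?_, ?_, ?_, ?_⟩
  · apply Commute.map
    show c0 * a0 = a0 * c0
    ext1 z
    show u * (2 * z) = 2 * (u * z)
    ring
  · apply Commute.map
    show c0 * twist = twist * c0
    ext1 z
    show u * twist z = twist (u * z)
    rw [twist_apply, twist_apply, norm_mul, hun, one_mul]
    ring
  · rw [← map_pow, ← map_one Φ]
    intro h
    have h1 := Φ_inj h
    have h2 := congrArg (fun e : ℂ ≃ₜ ℂ => e 1) h1
    simp only [c0] at h2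
    rw [mulH4, hu4] at h2
    have h3 : (-1 : ℂ) * 1 = 1 := h2
    norm_num at h3
  · rw [← map_pow, ← map_pow, ← map_mul, ← map_mul]
    intro h
    have h1 := Φ_inj h
    have h2 := congrArg (fun e : ℂ ≃ₜ ℂ => e ((Real.pi / 60 : ℝ) : ℂ)) h1
    have h3 : (a0 ^ 4) ((twist ^ 4) ((Real.pi / 60 : ℝ) : ℂ)) =
        (twist ^ 4) ((a0 ^ 4) ((Real.pi / 60 : ℝ) : ℂ)) := h2
    simp only [a0] at h3
    rw [mulH4, mulH4, twist4, twist4] at h3
    have n1 : ‖((Real.pi / 60 : ℝ) : ℂ)‖ = Real.pi / 60 := by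
      rw [norm_real, Real.norm_of_nonneg (by positivity)]
    have n2 : ‖(2 : ℂ) ^ 4 * ((Real.pi / 60 : ℝ) : ℂ)‖ = 16 * (Real.pi / 60) := by
      rw [norm_mul, n1, norm_pow]; norm_num
    rw [n1, n2] at h3
    have e1 : exp (4 * ((16 * (Real.pi / 60) : ℝ) : ℂ) * I) =
        - exp (4 * ((Real.pi / 60 : ℝ) : ℂ) * I) := by
      have : (4 * ((16 * (Real.pi / 60) : ℝ) : ℂ) * I) =
          (4 * ((Real.pi / 60 : ℝ) : ℂ) * I) + Real.pi * I := by
        push_cast; ring
      rw [this, exp_add, exp_pi_mul_I]; ring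
    rw [e1] at h3
    have hne : (2 : ℂ) ^ 4 * ((Real.pi / 60 : ℝ) : ℂ) * exp (4 * ((Real.pi / 60 : ℝ) : ℂ) * I) ≠ 0 := by
      refine mul_ne_zero (mul_ne_zero (by norm_num) ?_) (exp_ne_zero _)
      rw [ne_eq, ofReal_eq_zero]
      positivity
    apply hne
    linear_combination (1 / 2 : ℂ) * h3

end V11258.CG
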