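import Pool.Agent.V11258.CG.Sim

/-! Circle preserving maps of the Riemann sphere and 2×2 matrices. -/

open Complex Set OnePoint Matrix
open scoped ComplexConjugate OnePoint MatrixGroups

namespace V11258.CG

lemma Mob.comp {F H : OnePoint ℂ → OnePoint ℂ} (hH : Mob H) (hF : Mob F) : Mob (H ∘ F) := by
  refine ⟨hH.bij.comp hF.bij, fun α γ β hok => ?_⟩
  obtain ⟨α', γ', β', hok', h1⟩ := hF.fwd α γ β hok
  obtain ⟨α'', γ'', β'', hok'', h2⟩ := hH.fwd α' γ' β' hok'
  exact ⟨α'', γ'', β'', hok'', fun p => (h1 p).trans (h2 _)⟩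

/-- The matrix of `z ↦ 1 / (z - z₀)`. -/
noncomputable def inv0 (z0 : ℂ) : GL (Fin 2) ℂ :=
  Matrix.GeneralLinearGroup.mkOfDetNeZero !![0, 1; 1, -z0] (by simp [Matrix.det_fin_two])

/-- The matrix of `z ↦ a z + b`. -/
noncomputable def aff (a b : ℂ) (ha : a ≠ 0) : GL (Fin 2) ℂ :=
  Matrix.GeneralLinearGroup.mkOfDetNeZero !![a, b; 0, 1] (by simpa [Matrix.det_fin_two] using ha)

lemma inv0_infty (z0 : ℂ) : inv0 z0 • (∞ : OnePoint ℂ) = ((0 : ℂ) : OnePoint ℂ) := by
  rw [OnePoint.smul_infty_eq_ite]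
  simp [inv0, Matrix.GeneralLinearGroup.mkOfDetNeZero]

lemma inv0_self (z0 : ℂ) : inv0 z0 • (z0 : OnePoint ℂ) = (∞ : OnePoint ℂ) := by
  rw [OnePoint.smul_some_eq_ite]
  simp [inv0, Matrix.GeneralLinearGroup.mkOfDetNeZero]

lemma inv0_coe {z0 z : ℂ} (h : z ≠ z0) :
    inv0 z0 • (z : OnePoint ℂ) = ((1 / (z - z0) : ℂ) : OnePoint ℂ) := by
  rw [OnePoint.smul_some_eq_ite]
  have : z + -z0 ≠ 0 := by rw [← sub_eq_add_neg]; exact sub_ne_zero.2 h
  simp [inv0, Matrix.GeneralLinearGroup.mkOfDetNeZero, this, sub_eq_add_neg]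

lemma aff_infty (a b : ℂ) (ha : a ≠ 0) : aff a b ha • (∞ : OnePoint ℂ) = ∞ := by
  rw [OnePoint.smul_infty_eq_ite]
  simp [aff, Matrix.GeneralLinearGroup.mkOfDetNeZero]

lemma aff_coe (a b : ℂ) (ha : a ≠ 0) (z : ℂ) :
    aff a b ha • (z : OnePoint ℂ) = ((a * z + b : ℂ) : OnePoint ℂ) := by
  rw [OnePoint.smul_some_eq_ite]
  simp [aff, Matrix.GeneralLinearGroup.mkOfDetNeZero]

lemma mob_inv0 (z0 : ℂ) : Mob (fun p : OnePoint ℂ => inv0 z0 • p) := by
  refine ⟨MulAction.bijective (inv0 z0), fun α γ β hok => ?_⟩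
  refine ⟨α * normSq z0 + 2 * ip β z0 + γ, α, conj (α * z0 + β), ?_, ?_⟩
  · unfold ok at *
    have e : normSq (conj ((α : ℂ) * z0 + β)) - (α * normSq z0 + 2 * ip β z0 + γ) * α =
        normSq β - α * γ := by
      simp only [normSq_apply, ip, conj_re, conj_im, add_re, add_im, mul_re, mul_im, ofReal_re,
        ofReal_im]
      ring
    linarith
  · intro p
    induction p using OnePoint.rec with
    | infty =>
      rw [inv0_infty, on_infty, on_coe]
      simp [Q, ip]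
    | coe z =>
      rcases eq_or_ne z z0 with rfl | hz
      · rw [inv0_self, on_infty, on_coe]
        simp [Q]
      · rw [inv0_coe hz, on_coe, on_coe]
        have hN : normSq (z - z0) ≠ 0 := (normSq_pos.2 (sub_ne_zero.2 hz)).ne'
        have key : Q (α * normSq z0 + 2 * ip β z0 + γ) α (conj ((α : ℂ) * z0 + β)) (1 / (z - z0)) *
            normSq (z - z0) = Q α γ β z := by
          have e1 : normSq (1 / (z - z0)) = 1 / normSq (z - z0) := by
            rw [map_div₀]; simp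
          have e2 : ip (conj ((α : ℂ) * z0 + β)) (1 / (z - z0)) =
              ip ((α : ℂ) * z0 + β) (z - z0) / normSq (z - z0) := by
            unfold ip
            rw [one_div, inv_re, inv_im]
            simp only [conj_re, conj_im]
            ring
          unfold Q
          rw [e1, e2]
          have e3 : (α * normSq z0 + 2 * ip β z0 + γ) * (1 / normSq (z - z0)) +
              2 * (ip ((α : ℂ) * z0 + β) (z - z0) / normSq (z - z0)) + α =
              ((α * normSq z0 + 2 * ip β z0 + γ) + 2 * ip ((α : ℂ) * z0 + β) (z - z0) +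
                α * normSq (z - z0)) / normSq (z - z0) := by
            field_simp
          rw [e3, div_mul_cancel₀ _ hN]
          simp only [normSq_apply, ip, add_re, add_im, sub_re, sub_im, mul_re, mul_im, ofReal_re,
            ofReal_im]
          ring
        rw [← key]
        constructor
        · intro h
          exact (mul_eq_zero.1 h).resolve_right hN
        · intro h
          rw [h, zero_mul]

/-- Complex conjugation on the sphere. -/
noncomputable def cj (p : OnePoint ℂ) : OnePoint ℂ := OnePoint.map (starRingEnd ℂ) p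

lemma cj_infty : cj ∞ = ∞ := rfl
lemma cj_coe (z : ℂ) : cj (z : OnePoint ℂ) = ((conj z : ℂ) : OnePoint ℂ) := rfl
lemma cj_cj (p : OnePoint ℂ) : cj (cj p) = p := by
  induction p using OnePoint.rec with
  | infty => rfl
  | coe z => rw [cj_coe, cj_coe, Complex.conj_conj]

/-- Classification. -/
theorem classify {F : OnePoint ℂ → OnePoint ℂ} (hF : Mob F) :
    ∃ A : GL (Fin 2) ℂ, (∀ x, F x = A • x) ∨ (∀ x, F x = A • cj x) := by
  have base : ∀ F : OnePoint ℂ → OnePoint ℂ, Mob F → F ∞ = ∞ →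
      ∃ A : GL (Fin 2) ℂ, (∀ x, F x = A • x) ∨ (∀ x, F x = A • cj x) := by
    intro F hF h
    obtain ⟨a, b, ha, h1 | h1⟩ := sim hF h
    · refine ⟨aff a b ha, Or.inl fun x => ?_⟩
      induction x using OnePoint.rec with
      | infty => rw [aff_infty, h]
      | coe z => rw [aff_coe, h1]
    · refine ⟨aff a b ha, Or.inr fun x => ?_⟩
      induction x using OnePoint.rec with
      | infty => rw [cj_infty, aff_infty, h]
      | coe z => rw [cj_coe, aff_coe, h1]
  rcases eq_or_ne (F ∞) ∞ with h | h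
  · exact base F hF h
  · obtain ⟨z0, hz0⟩ := OnePoint.ne_infty_iff_exists.1 h
    obtain ⟨A, hA⟩ := base ((fun p => inv0 z0 • p) ∘ F) ((mob_inv0 z0).comp hF) (by
      show inv0 z0 • (F ∞) = ∞
      rw [← hz0, inv0_self])
    refine ⟨(inv0 z0)⁻¹ * A, ?_⟩
    rcases hA with h1 | h1
    · left
      intro x
      have := h1 x
      simp only [Function.comp] at this
      rw [mul_smul, ← this, inv_smul_smul]
    · right
      intro x
      have := h1 x
      simp only [Function.comp] at this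
      rw [mul_smul, ← this, inv_smul_smul]

theorem square {F : OnePoint ℂ → OnePoint ℂ} (hF : Mob F) :
    ∃ A : GL (Fin 2) ℂ, ∀ x, F (F x) = A • x := by
  obtain ⟨A, h | h⟩ := classify hF
  · exact ⟨A * A, fun x => by rw [h, h, mul_smul]⟩
  · refine ⟨A * Matrix.GeneralLinearGroup.map (starRingEnd ℂ) A, fun x => ?_⟩
    rw [h, h, mul_smul]
    congr 1
    have := OnePoint.map_smul (starRingEnd ℂ) A (cj x)
    unfold cj at *
    rw [this]
    congr 1
    exact cj_cj x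

lemma smul_zero_iff {Z : GL (Fin 2) ℂ} (h : ∀ x : OnePoint ℂ, Z • x = x) :
    Z 1 0 = 0 ∧ Z 0 1 = 0 ∧ Z 0 0 = Z 1 1 := by
  have h1 := h ∞
  rw [OnePoint.smul_infty_eq_self_iff] at h1
  have h2 := h ((0 : ℂ) : OnePoint ℂ)
  have h3 := h ((1 : ℂ) : OnePoint ℂ)
  rw [OnePoint.smul_some_eq_ite] at h2 h3
  rw [h1] at h2 h3
  simp only [zero_mul, mul_one, zero_add, mul_zero] at h2 h3
  split_ifs at h2 with hc
  · exact absurd h2 (OnePoint.infty_ne_coe _)
  · rw [OnePoint.coe_eq_coe, div_eq_zero_iff] at h2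
    have h4 := h2.resolve_right hc
    rw [if_neg hc, OnePoint.coe_eq_coe, h4, add_zero, div_eq_one_iff_eq hc] at h3
    exact ⟨h1, h4, h3⟩

lemma faithful {X Y : GL (Fin 2) ℂ} (h : ∀ x : OnePoint ℂ, X • x = Y • x) :
    ∃ l : ℂ, (X : Matrix (Fin 2) (Fin 2) ℂ) = l • (Y : Matrix (Fin 2) (Fin 2) ℂ) := by
  have hZ : ∀ x : OnePoint ℂ, (Y⁻¹ * X) • x = x := fun x => by
    rw [mul_smul, h, inv_smul_smul]
  obtain ⟨h1, h2, h3⟩ := smul_zero_iff hZ
  set Z := Y⁻¹ * X with hZd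
  have hX : X = Y * Z := by rw [hZd]; group
  refine ⟨Z 1 1, ?_⟩
  have hZs : (Z : Matrix (Fin 2) (Fin 2) ℂ) = (Z 1 1) • (1 : Matrix (Fin 2) (Fin 2) ℂ) := by
    ext i j
    fin_cases i <;> fin_cases j <;> simp [h1, h2, h3]
  have : (X : Matrix (Fin 2) (Fin 2) ℂ) = (Y : Matrix (Fin 2) (Fin 2) ℂ) * (Z : Matrix (Fin 2) (Fin 2) ℂ) := by
    conv_lhs => rw [hX]
    rfl
  rw [this, hZs]
  simp

lemma trivial_of_scalar {W : GL (Fin 2) ℂ} (h1 : W 1 0 = 0) (h2 : W 0 1 = 0)
    (h3 : W 0 0 = W 1 1) (x : OnePoint ℂ) : W • x = x := by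
  have hd : W 1 1 ≠ 0 := by
    intro h0
    have := W.det_ne_zero
    rw [Matrix.det_fin_two, h1, h3, h0] at this
    simp at this
  induction x using OnePoint.rec with
  | infty => rw [OnePoint.smul_infty_eq_self_iff]; exact h1
  | coe z =>
    rw [OnePoint.smul_some_eq_ite, h1, h2, h3]
    simp only [zero_mul, zero_add, add_zero]
    rw [if_neg hd, OnePoint.coe_eq_coe]
    field_simp

lemma prop_of_comm {A X : Matrix (Fin 2) (Fin 2) ℂ}
    (hX : ¬ (X 1 0 = 0 ∧ X 0 1 = 0 ∧ X 0 0 = X 1 1)) (h : A * X = X * A) :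
    ∃ t, A 0 1 = t * X 0 1 ∧ A 1 0 = t * X 1 0 ∧ A 0 0 - A 1 1 = t * (X 0 0 - X 1 1) := by
  have e00 := congrFun (congrFun h 0) 0
  have e01 := congrFun (congrFun h 0) 1
  have e10 := congrFun (congrFun h 1) 0
  simp only [Matrix.mul_apply, Fin.sum_univ_two] at e00 e01 e10
  by_cases h1 : X 1 0 = 0
  · by_cases h2 : X 0 1 = 0
    · have h3 : X 0 0 - X 1 1 ≠ 0 := fun h3 => hX ⟨h1, h2, sub_eq_zero.1 h3⟩
      refine ⟨(A 0 0 - A 1 1) / (X 0 0 - X 1 1), ?_, ?_, ?_⟩
      · rw [div_mul_eq_mul_div, eq_div_iff h3]; linear_combination -e01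
      · rw [div_mul_eq_mul_div, eq_div_iff h3]; linear_combination e10
      · rw [div_mul_cancel₀ _ h3]
    · refine ⟨A 0 1 / X 0 1, ?_, ?_, ?_⟩
      · rw [div_mul_cancel₀ _ h2]
      · rw [div_mul_eq_mul_div, eq_div_iff h2]; linear_combination -e00
      · rw [div_mul_eq_mul_div, eq_div_iff h2]; linear_combination e01
  · refine ⟨A 1 0 / X 1 0, ?_, ?_, ?_⟩
    · rw [div_mul_eq_mul_div, eq_div_iff h1]; linear_combination e00
    · rw [div_mul_cancel₀ _ h1]
    · rw [div_mul_eq_mul_div, eq_div_iff h1]; linear_combination -e10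

lemma comm_of_comm {A B X : Matrix (Fin 2) (Fin 2) ℂ}
    (hX : ¬ (X 1 0 = 0 ∧ X 0 1 = 0 ∧ X 0 0 = X 1 1)) (hA : A * X = X * A) (hB : B * X = X * B) :
    A * B = B * A := by
  obtain ⟨s, a1, a2, a3⟩ := prop_of_comm hX hA
  obtain ⟨t, b1, b2, b3⟩ := prop_of_comm hX hB
  have a4 : A 0 0 = A 1 1 + s * (X 0 0 - X 1 1) := by linear_combination a3
  have b4 : B 0 0 = B 1 1 + t * (X 0 0 - X 1 1) := by linear_combination b3
  have eA := Matrix.eta_fin_two A
  have eB := Matrix.eta_fin_two B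
  rw [a1, a2, a4] at eA
  rw [b1, b2, b4] at eB
  rw [eA, eB, Matrix.mul_fin_two, Matrix.mul_fin_two]
  congr 1
  ext i j
  fin_cases i <;> fin_cases j <;> simp <;> ring

lemma sq_comm {a c : Equiv.Perm (OnePoint ℂ)} (h : Commute c a) {A C : GL (Fin 2) ℂ}
    (hA : ∀ x, a (a x) = A • x) (hC : ∀ x, c (c x) = C • x) :
    (A : Matrix (Fin 2) (Fin 2) ℂ) * (C * C) = (C * C) * A := by
  have hh : ∀ x, c (a x) = a (c x) := fun x => congrArg (fun e : Equiv.Perm _ => e x) h.eq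
  have h1 : ∀ x : OnePoint ℂ, (C * A) • x = (A * C) • x := by
    intro x
    rw [mul_smul, mul_smul, ← hA, ← hC, ← hC, ← hA, hh, hh, hh, hh]
  obtain ⟨l, hl⟩ := faithful h1
  have hl' : (C : Matrix (Fin 2) (Fin 2) ℂ) * A = l • ((A : Matrix (Fin 2) (Fin 2) ℂ) * C) := hl
  have hdet := congrArg Matrix.det hl'
  rw [Matrix.det_smul, Matrix.det_mul, Matrix.det_mul] at hdet
  simp only [Fintype.card_fin] at hdet
  have hne : (A : Matrix (Fin 2) (Fin 2) ℂ).det * (C : Matrix (Fin 2) (Fin 2) ℂ).det ≠ 0 :=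
    mul_ne_zero A.det_ne_zero C.det_ne_zero
  have hl2 : l ^ 2 = 1 := by
    have : (l ^ 2 - 1) * ((A : Matrix (Fin 2) (Fin 2) ℂ).det * (C : Matrix (Fin 2) (Fin 2) ℂ).det) = 0 := by
      linear_combination -hdet
    have := (mul_eq_zero.1 this).resolve_right hne
    linear_combination this
  symm
  calc (C : Matrix (Fin 2) (Fin 2) ℂ) * C * A = C * (C * A) := Matrix.mul_assoc _ _ _
    _ = C * (l • ((A : Matrix (Fin 2) (Fin 2) ℂ) * C)) := by rw [hl']
    _ = l • ((C * A) * C) := by rw [Matrix.mul_smul, Matrix.mul_assoc]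
    _ = l • ((l • ((A : Matrix (Fin 2) (Fin 2) ℂ) * C)) * C) := by rw [hl']
    _ = (l ^ 2) • ((A : Matrix (Fin 2) (Fin 2) ℂ) * C * C) := by
        rw [Matrix.smul_mul, smul_smul, pow_two]
    _ = A * (C * C) := by rw [hl2, one_smul, Matrix.mul_assoc]

/-- The group-theoretic property of the group of circle preserving maps. -/
theorem propP {a b c : Equiv.Perm (OnePoint ℂ)} (ha : Mob a) (hb : Mob b) (hc : Mob c)
    (hca : Commute c a) (hcb : Commute c b) (hc4 : c ^ 4 ≠ 1) : a ^ 4 * b ^ 4 = b ^ 4 * a ^ 4 := by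
  obtain ⟨A, hA⟩ := square ha
  obtain ⟨B, hB⟩ := square hb
  obtain ⟨C, hC⟩ := square hc
  have h1 := sq_comm hca hA hC
  have h2 := sq_comm hcb hB hC
  have p4 : ∀ (e : Equiv.Perm (OnePoint ℂ)) (E : GL (Fin 2) ℂ), (∀ x, e (e x) = E • x) →
      ∀ x, (e ^ 4) x = (E * E) • x := by
    intro e E hE x
    have : (e ^ 4) x = e (e (e (e x))) := rfl
    rw [this, hE, hE, mul_smul]
  by_cases hs : ((C * C : GL (Fin 2) ℂ) 1 0 = 0 ∧ (C * C : GL (Fin 2) ℂ) 0 1 = 0 ∧
      (C * C : GL (Fin 2) ℂ) 0 0 = (C * C : GL (Fin 2) ℂ) 1 1)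
  · exfalso
    apply hc4
    ext x
    rw [p4 c C hC, trivial_of_scalar hs.1 hs.2.1 hs.2.2]
    rfl
  · have hAB : (A : Matrix (Fin 2) (Fin 2) ℂ) * B = B * A := comm_of_comm hs h1 h2
    have hAB' : A * B = B * A := Units.ext hAB
    have hc2 : (A * A) * (B * B) = (B * B) * (A * A) :=
      ((show Commute A B from hAB').mul_left hAB').mul_right
        ((show Commute A B from hAB').mul_left hAB')
    ext x
    show (a ^ 4) ((b ^ 4) x) = (b ^ 4) ((a ^ 4) x)
    rw [p4 b B hB x, p4 a A hA, p4 a A hA, p4 b B hB, ← mul_smul, ← mul_smul, hc2]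

end V11258.CG
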