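import Pool.Agent.V11258.CG.Graph
import Pool.Agent.V11258.CG.Homeo
import Pool.Agent.V11258.CG.Mat

/-! Stereographic coordinates and the main theorem. -/

open Set Metric Complex OnePoint
open scoped OnePoint

namespace V11258.CG

/-- The point of the sphere over a complex number. -/
noncomputable def sp0 (z : ℂ) : E 2 :=
  !₂[2 * z.re / (normSq z + 1), 2 * z.im / (normSq z + 1), (normSq z - 1) / (normSq z + 1)]

/-- The north pole. -/
noncomputable def north : E 2 := !₂[0, 0, 1]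

/-- Inverse stereographic projection. -/
noncomputable def sp (p : OnePoint ℂ) : E 2 := OnePoint.elim p north sp0

@[simp] lemma sp_infty : sp ∞ = north := rfl
@[simp] lemma sp_coe (z : ℂ) : sp (z : OnePoint ℂ) = sp0 z := rfl

lemma den_pos (z : ℂ) : 0 < normSq z + 1 := by have := normSq_nonneg z; linarith

lemma norm_one_iff {x : E 2} : ‖x‖ = 1 ↔ x 0 ^ 2 + x 1 ^ 2 + x 2 ^ 2 = 1 := by
  have h := EuclideanSpace.norm_sq_eq x
  rw [Fin.sum_univ_three] at h
  simp only [Real.norm_eq_abs, sq_abs] at h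
  rw [← h]
  constructor
  · intro h1; rw [h1]; norm_num
  · intro h1
    have := norm_nonneg x
    nlinarith

lemma inner_three (n x : E 2) : inner ℝ n x = n 0 * x 0 + n 1 * x 1 + n 2 * x 2 := by
  rw [PiLp.inner_apply, Fin.sum_univ_three]
  simp only [RCLike.inner_apply, conj_trivial]
  ring

lemma sp0_zero (z : ℂ) : sp0 z 0 = 2 * z.re / (normSq z + 1) := rfl
lemma sp0_one (z : ℂ) : sp0 z 1 = 2 * z.im / (normSq z + 1) := rfl
lemma sp0_two (z : ℂ) : sp0 z 2 = (normSq z - 1) / (normSq z + 1) := rfl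
lemma north_zero : north 0 = 0 := rfl
lemma north_one : north 1 = 0 := rfl
lemma north_two : north 2 = 1 := rfl

lemma norm_sp (p : OnePoint ℂ) : ‖sp p‖ = 1 := by
  rw [norm_one_iff]
  induction p using OnePoint.rec with
  | infty => rw [sp_infty, north_zero, north_one, north_two]; norm_num
  | coe z =>
    rw [sp_coe, sp0_zero, sp0_one, sp0_two]
    have h := den_pos z
    have h2 : normSq z = z.re ^ 2 + z.im ^ 2 := by rw [normSq_apply]; ring
    field_simp
    rw [h2]; ring

lemma sp_surj {q : E 2} (hq : ‖q‖ = 1) : ∃ p, sp p = q := by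
  rw [norm_one_iff] at hq
  by_cases h1 : q 2 = 1
  · refine ⟨∞, ?_⟩
    rw [sp_infty]
    rw [h1] at hq
    have h0 : q 0 = 0 := by nlinarith [sq_nonneg (q 0), sq_nonneg (q 1)]
    have h0' : q 1 = 0 := by nlinarith [sq_nonneg (q 0), sq_nonneg (q 1)]
    ext i
    fin_cases i
    · exact h0.symm
    · exact h0'.symm
    · exact h1.symm
  · have hlt : q 2 < 1 := by
      rcases lt_or_gt_of_ne h1 with h | h
      · exact h
      · nlinarith [sq_nonneg (q 0), sq_nonneg (q 1)]
    have hd : 0 < 1 - q 2 := by linarith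
    refine ⟨((⟨q 0 / (1 - q 2), q 1 / (1 - q 2)⟩ : ℂ) : OnePoint ℂ), ?_⟩
    have hn : normSq (⟨q 0 / (1 - q 2), q 1 / (1 - q 2)⟩ : ℂ) + 1 = 2 / (1 - q 2) := by
      rw [normSq_mk]
      field_simp
      nlinarith
    have hn' : normSq (⟨q 0 / (1 - q 2), q 1 / (1 - q 2)⟩ : ℂ) - 1 = 2 / (1 - q 2) - 2 := by
      linarith
    rw [sp_coe]
    ext i
    fin_cases i
    · show sp0 _ 0 = q 0
      rw [sp0_zero, hn]; field_simp
    · show sp0 _ 1 = q 1
      rw [sp0_one, hn]; field_simp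
    · show sp0 _ 2 = q 2
      rw [sp0_two, hn, hn']; field_simp; ring

lemma on_sp (n : E 2) (c : ℝ) (p : OnePoint ℂ) :
    inner ℝ n (sp p) = c ↔ On (n 2 - c) (-(n 2 + c)) ⟨n 0, n 1⟩ p := by
  rw [inner_three]
  induction p using OnePoint.rec with
  | infty =>
    rw [sp_infty, north_zero, north_one, north_two, on_infty]
    constructor <;> intro h <;> linarith
  | coe z =>
    rw [sp_coe, sp0_zero, sp0_one, sp0_two, on_coe]
    have h := den_pos z
    unfold Q ip
    simp only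
    have e : n 0 * (2 * z.re / (normSq z + 1)) + n 1 * (2 * z.im / (normSq z + 1)) +
        n 2 * ((normSq z - 1) / (normSq z + 1)) - c =
        ((n 2 - c) * normSq z + 2 * (n 0 * z.re + n 1 * z.im) + -(n 2 + c)) / (normSq z + 1) := by
      field_simp; ring
    rw [← sub_eq_zero, e, div_eq_zero_iff]
    constructor
    · rintro (h' | h')
      · exact h'
      · exact absurd h' h.ne'
    · exact Or.inl

lemma norm_sq_three (n : E 2) : ‖n‖ ^ 2 = n 0 ^ 2 + n 1 ^ 2 + n 2 ^ 2 := by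
  rw [EuclideanSpace.norm_sq_eq, Fin.sum_univ_three]
  simp only [Real.norm_eq_abs, sq_abs]

/-- Discs are generalized circles. -/
lemma disc_to_on (A : Vtx 2) : ∃ α γ β, ok α γ β ∧ ∀ p, sp p ∈ A.1 ↔ On α γ β p := by
  obtain ⟨n, c, hnc, hA⟩ := isDisc_iff.1 A.2
  refine ⟨n 2 - c, -(n 2 + c), ⟨n 0, n 1⟩, ?_, fun p => ?_⟩
  · unfold ok
    rw [norm_sq_three] at hnc
    rw [normSq_mk]
    nlinarith
  · rw [hA, mem_disc, ← on_sp]
    exact ⟨fun h => h.2, fun h => ⟨(norm_sp p).le, h⟩⟩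

/-- Generalized circles are discs. -/
lemma on_to_disc {α γ : ℝ} {β : ℂ} (h : ok α γ β) : ∃ A : Vtx 2, ∀ p, sp p ∈ A.1 ↔ On α γ β p := by
  let n : E 2 := !₂[β.re, β.im, (α - γ) / 2]
  have n0 : n 0 = β.re := rfl
  have n1 : n 1 = β.im := rfl
  have n2 : n 2 = (α - γ) / 2 := rfl
  have hnc : (-(α + γ) / 2) ^ 2 < ‖n‖ ^ 2 := by
    rw [norm_sq_three, n0, n1, n2]
    unfold ok at h
    rw [normSq_apply] at h
    nlinarith
  refine ⟨⟨_, isDisc_iff.2 ⟨n, -(α + γ) / 2, hnc, rfl⟩⟩, fun p => ?_⟩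
  show sp p ∈ closedBall 0 1 ∩ hyp n (-(α + γ) / 2) ↔ _
  rw [mem_disc]
  have e := on_sp n (-(α + γ) / 2) p
  have e1 : n 2 - -(α + γ) / 2 = α := by rw [n2]; ring
  have e2 : -(n 2 + -(α + γ) / 2) = γ := by rw [n2]; ring
  have e3 : (⟨n 0, n 1⟩ : ℂ) = β := by rw [n0, n1]
  rw [e1, e2, e3] at e
  rw [← e]
  exact ⟨fun h => h.2, fun h => ⟨(norm_sp p).le, h⟩⟩

lemma sp_inj : Function.Injective sp := by
  intro p q h
  induction p using OnePoint.rec with
  | infty =>
    induction q using OnePoint.rec with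
    | infty => rfl
    | coe w =>
      exfalso
      have h2 := congrArg (fun x : E 2 => x 2) h
      simp only [sp_infty, sp_coe, sp0_two, north_two] at h2
      have := den_pos w
      rw [eq_div_iff this.ne'] at h2
      linarith
  | coe z =>
    induction q using OnePoint.rec with
    | infty =>
      exfalso
      have h2 := congrArg (fun x : E 2 => x 2) h
      simp only [sp_infty, sp_coe, sp0_two, north_two] at h2
      have := den_pos z
      rw [div_eq_iff this.ne'] at h2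
      linarith
    | coe w =>
      have h2 := congrArg (fun x : E 2 => x 2) h
      have h1 := congrArg (fun x : E 2 => x 1) h
      have h0 := congrArg (fun x : E 2 => x 0) h
      simp only [sp_coe, sp0_two, sp0_one, sp0_zero] at h2 h1 h0
      have hz := den_pos z
      have hw := den_pos w
      have hzw : normSq z = normSq w := by
        rw [div_eq_div_iff hz.ne' hw.ne'] at h2
        linarith
      rw [hzw] at h1 h0
      rw [div_left_inj' hw.ne'] at h1 h0
      rw [OnePoint.coe_eq_coe]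
      apply Complex.ext <;> linarith

/-- The action of an automorphism on the Riemann sphere. -/
lemma act' (φ : sphereGraph 2 ≃g sphereGraph 2) (x : OnePoint ℂ) :
    ∃ y : OnePoint ℂ, ∀ A : Vtx 2, sp x ∈ A.1 ↔ sp y ∈ (φ A).1 := by
  obtain ⟨q, hq, h⟩ := act φ (norm_sp x)
  obtain ⟨y, rfl⟩ := sp_surj hq
  exact ⟨y, h⟩

/-- The action of an automorphism on the Riemann sphere. -/
noncomputable def T (φ : sphereGraph 2 ≃g sphereGraph 2) (x : OnePoint ℂ) : OnePoint ℂ :=
  Classical.choose (act' φ x)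

lemma T_spec (φ : sphereGraph 2 ≃g sphereGraph 2) (x : OnePoint ℂ) (A : Vtx 2) :
    sp x ∈ A.1 ↔ sp (T φ x) ∈ (φ A).1 := Classical.choose_spec (act' φ x) A

lemma T_unique (φ : sphereGraph 2 ≃g sphereGraph 2) {x y : OnePoint ℂ}
    (h : ∀ A : Vtx 2, sp x ∈ A.1 ↔ sp y ∈ (φ A).1) : y = T φ x := by
  apply sp_inj
  apply Kp_inj (norm_sp y)
  intro B hB
  have h1 := h (φ.symm B)
  have h2 := T_spec φ x (φ.symm B)
  rw [RelIso.apply_symm_apply] at h1 h2
  exact h2.1 (h1.2 hB)

lemma T_one (x : OnePoint ℂ) : T 1 x = x := (T_unique 1 fun _ => Iff.rfl).symm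

lemma T_mul (φ ψ : sphereGraph 2 ≃g sphereGraph 2) (x : OnePoint ℂ) :
    T (φ * ψ) x = T φ (T ψ x) := by
  refine (T_unique (φ * ψ) fun A => ?_).symm
  rw [T_spec ψ x A, T_spec φ (T ψ x) (ψ A)]
  rfl

/-- The action as a homomorphism to permutations. -/
noncomputable def Th : (sphereGraph 2 ≃g sphereGraph 2) →* Equiv.Perm (OnePoint ℂ) where
  toFun φ :=
    { toFun := T φ
      invFun := T φ⁻¹
      left_inv := fun x => by rw [← T_mul, inv_mul_cancel, T_one]
      right_inv := fun x => by rw [← T_mul, mul_inv_cancel, T_one] }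
  map_one' := Equiv.ext T_one
  map_mul' φ ψ := Equiv.ext (T_mul φ ψ)

lemma Th_apply (φ : sphereGraph 2 ≃g sphereGraph 2) (x : OnePoint ℂ) : Th φ x = T φ x := rfl

lemma Th_inj : Function.Injective Th := by
  intro φ ψ h
  apply RelIso.ext
  intro A
  apply eq_of_sphere
  intro p hp
  obtain ⟨y, rfl⟩ := sp_surj hp
  obtain ⟨x, rfl⟩ := (Th φ).surjective y
  have h1 : T φ x = T ψ x := by rw [← Th_apply, ← Th_apply, h]
  rw [Th_apply, ← T_spec φ x A, h1, ← T_spec ψ x A]

lemma mob_Th (φ : sphereGraph 2 ≃g sphereGraph 2) : Mob (Th φ) := by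
  refine ⟨(Th φ).bijective, fun α γ β h => ?_⟩
  obtain ⟨A, hA⟩ := on_to_disc h
  obtain ⟨α', γ', β', h', hB⟩ := disc_to_on (φ A)
  refine ⟨α', γ', β', h', fun p => ?_⟩
  rw [← hA, ← hB, Th_apply]
  exact T_spec φ p A

theorem not_iso : IsEmpty ((Sph 2 ≃ₜ Sph 2) ≃* (sphereGraph 2 ≃g sphereGraph 2)) := by
  constructor
  intro Ψ
  obtain ⟨a, b, c, hca, hcb, hc, hab⟩ := exists_homeos
  let F : (Sph 2 ≃ₜ Sph 2) →* Equiv.Perm (OnePoint ℂ) := Th.comp Ψ.toMonoidHom
  have hF : Function.Injective F := Th_inj.comp Ψ.injective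
  have hm : ∀ x, Mob (F x) := fun x => mob_Th (Ψ x)
  have := propP (hm a) (hm b) (hm c) (hca.map F) (hcb.map F) (by
    rw [← map_pow]
    intro h
    exact hc (hF (h.trans (map_one F).symm)))
  apply hab
  apply hF
  rw [map_mul, map_mul, map_pow, map_pow]
  exact this

end V11258.CG
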