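import Mathlib

/-! Maps of the Riemann sphere preserving generalized circles: the maps fixing `∞`. -/

open Complex Set OnePoint
open scoped ComplexConjugate OnePoint

namespace V11258.CG

/-- Real inner product of complex numbers. -/
def ip (β z : ℂ) : ℝ := β.re * z.re + β.im * z.im

/-- The left side of the equation of a generalized circle. -/
def Q (α γ : ℝ) (β z : ℂ) : ℝ := α * normSq z + 2 * ip β z + γ

/-- The generalized circle with coefficients `α, γ, β`. -/
def On (α γ : ℝ) (β : ℂ) (p : OnePoint ℂ) : Prop :=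
  (p = ∞ ∧ α = 0) ∨ ∃ z : ℂ, p = (z : OnePoint ℂ) ∧ Q α γ β z = 0

@[simp] lemma on_infty {α γ : ℝ} {β : ℂ} : On α γ β ∞ ↔ α = 0 := by
  unfold On
  constructor
  · rintro (h | ⟨z, h, -⟩)
    · exact h.2
    · exact absurd h (OnePoint.infty_ne_coe z)
  · intro h
    exact Or.inl ⟨rfl, h⟩

@[simp] lemma on_coe {α γ : ℝ} {β z : ℂ} : On α γ β (z : OnePoint ℂ) ↔ Q α γ β z = 0 := by
  unfold On
  constructor
  · rintro (h | ⟨w, h, hw⟩)
    · exact absurd h.1 (OnePoint.coe_ne_infty z)
    · rw [OnePoint.coe_eq_coe] at h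
      rw [h]; exact hw
  · intro h
    exact Or.inr ⟨z, rfl, h⟩

/-- Nondegeneracy of the coefficients. -/
def ok (α γ : ℝ) (β : ℂ) : Prop := α * γ < normSq β

/-- Bijections of the sphere which carry generalized circles to generalized circles. -/
structure Mob (F : OnePoint ℂ → OnePoint ℂ) : Prop where
  bij : Function.Bijective F
  fwd : ∀ α γ β, ok α γ β → ∃ α' γ' β', ok α' γ' β' ∧ ∀ p, On α γ β p ↔ On α' γ' β' (F p)

/-- Cross product. -/
def cr (z w : ℂ) : ℝ := z.re * w.im - z.im * w.re

lemma ne_zero_of_normSq {z : ℂ} (h : 0 < normSq z) : z ≠ 0 := normSq_pos.1 h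

section
variable {F : OnePoint ℂ → OnePoint ℂ} {g : ℂ → ℂ}

/-- A map of the plane which extends to a circle preserving map fixing `∞`. -/
structure Ext (F : OnePoint ℂ → OnePoint ℂ) (g : ℂ → ℂ) : Prop where
  mob : Mob F
  inf : F ∞ = ∞
  val : ∀ z : ℂ, F z = (g z : OnePoint ℂ)

lemma exists_ext (hF : Mob F) (h : F ∞ = ∞) : ∃ g, Ext F g := by
  have : ∀ z : ℂ, ∃ w : ℂ, F z = (w : OnePoint ℂ) := by
    intro z
    have hne : F z ≠ ∞ := by
      intro h2
      exact OnePoint.coe_ne_infty z (hF.bij.1 (h2.trans h.symm))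
    obtain ⟨w, hw⟩ := OnePoint.ne_infty_iff_exists.1 hne
    exact ⟨w, hw.symm⟩
  choose g hg using this
  exact ⟨g, hF, h, hg⟩

lemma Ext.surj (h : Ext F g) (y : ℂ) : ∃ x, g x = y := by
  obtain ⟨p, hp⟩ := h.mob.bij.2 (y : OnePoint ℂ)
  have hne : p ≠ ∞ := by
    rintro rfl
    rw [h.inf] at hp
    exact OnePoint.infty_ne_coe y hp
  obtain ⟨x, rfl⟩ := OnePoint.ne_infty_iff_exists.1 hne
  refine ⟨x, ?_⟩
  rw [h.val] at hp
  exact OnePoint.coe_eq_coe.1 hp

lemma Ext.inj (h : Ext F g) {x y : ℂ} (hxy : g x = g y) : x = y := by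
  have : F x = F y := by rw [h.val, h.val, hxy]
  exact OnePoint.coe_eq_coe.1 (h.mob.bij.1 this)

lemma Ext.line (h : Ext F g) {β : ℂ} (hβ : β ≠ 0) (t : ℝ) :
    ∃ β' : ℂ, β' ≠ 0 ∧ ∃ t', ∀ x, ip β x = t ↔ ip β' (g x) = t' := by
  have hok : ok 0 (-2 * t) β := by
    unfold ok; rw [zero_mul]; exact normSq_pos.2 hβ
  obtain ⟨α', γ', β', hok', hp⟩ := h.mob.fwd 0 (-2 * t) β hok
  have h0 : α' = 0 := by
    have := (hp ∞).1 (on_infty.2 rfl)
    rw [h.inf] at this
    exact on_infty.1 this
  subst h0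
  refine ⟨β', ?_, -γ' / 2, ?_⟩
  · unfold ok at hok'
    rw [zero_mul] at hok'
    exact normSq_pos.1 hok'
  · intro x
    have := hp (x : OnePoint ℂ)
    rw [h.val, on_coe, on_coe] at this
    unfold Q at this
    constructor
    · intro hx
      have := this.1 (by rw [hx]; ring)
      linarith
    · intro hx
      have := this.2 (by rw [hx]; ring)
      linarith

lemma exists_on_line {β : ℂ} (hβ : β ≠ 0) (t : ℝ) : ∃ x, ip β x = t := by
  have h : normSq β ≠ 0 := (normSq_pos.2 hβ).ne'
  refine ⟨((t / normSq β : ℝ) : ℂ) * β, ?_⟩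
  unfold ip
  simp only [mul_re, mul_im, ofReal_re, ofReal_im, zero_mul, sub_zero, add_zero]
  have h2 : normSq β = β.re * β.re + β.im * β.im := normSq_apply β
  have h3 : β.re * (t / normSq β * β.re) + β.im * (t / normSq β * β.im) =
      t / normSq β * (β.re * β.re + β.im * β.im) := by ring
  rw [h3, ← h2, div_mul_cancel₀ _ h]

lemma Ext.parallel (h : Ext F g) {β : ℂ} (hβ : β ≠ 0) {t s : ℝ} (hts : t ≠ s) :
    ∃ b : ℂ, b ≠ 0 ∧ ∃ t' s', t' ≠ s' ∧ (∀ x, ip β x = t ↔ ip b (g x) = t') ∧
      (∀ x, ip β x = s ↔ ip b (g x) = s') := by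
  obtain ⟨b, hb, t', ht⟩ := h.line hβ t
  obtain ⟨c, hc, s', hs⟩ := h.line hβ s
  have hdet : cr b c = 0 := by
    by_contra hd
    let y : ℂ := ⟨(t' * c.im - b.im * s') / cr b c, (b.re * s' - t' * c.re) / cr b c⟩
    have h1 : ip b y = t' := by
      have : ip b y = (b.re * (t' * c.im - b.im * s') + b.im * (b.re * s' - t' * c.re)) /
          cr b c := by simp only [ip, y]; ring
      rw [this, div_eq_iff hd]; simp only [cr]; ring
    have h2 : ip c y = s' := by
      have : ip c y = (c.re * (t' * c.im - b.im * s') + c.im * (b.re * s' - t' * c.re)) /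
          cr b c := by simp only [ip, y]; ring
      rw [this, div_eq_iff hd]; simp only [cr]; ring
    obtain ⟨x, hx⟩ := h.surj y
    rw [← hx] at h1 h2
    exact hts (((ht x).2 h1).symm.trans ((hs x).2 h2))
  have hbs : 0 < b.re * b.re + b.im * b.im := by
    rw [← normSq_apply]; exact normSq_pos.2 hb
  have hcs : 0 < c.re * c.re + c.im * c.im := by
    rw [← normSq_apply]; exact normSq_pos.2 hc
  set lam : ℝ := ip b c / (b.re * b.re + b.im * b.im) with hlam
  have e1 : c.re = lam * b.re := by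
    rw [hlam, div_mul_eq_mul_div, eq_div_iff hbs.ne']; unfold ip; unfold cr at hdet
    linear_combination (-b.im) * hdet
  have e2 : c.im = lam * b.im := by
    rw [hlam, div_mul_eq_mul_div, eq_div_iff hbs.ne']; unfold ip; unfold cr at hdet
    linear_combination (b.re) * hdet
  have hl : lam ≠ 0 := by
    intro h0
    rw [h0] at e1 e2
    rw [e1, e2] at hcs
    simp at hcs
  have e3 : ∀ y, ip c y = lam * ip b y := by
    intro y; unfold ip; rw [e1, e2]; ring
  refine ⟨b, hb, t', s' / lam, ?_, ht, ?_⟩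
  · intro hh
    obtain ⟨x, hx⟩ := exists_on_line hβ t
    have h1 := (ht x).1 hx
    have h2 : ip c (g x) = s' := by
      rw [e3, h1, hh]; field_simp
    exact hts (hx.symm.trans ((hs x).2 h2))
  · intro x
    rw [hs x, e3]
    constructor
    · intro hh; field_simp; linarith
    · intro hh; rw [hh]; field_simp

/-- The normalized map. -/
def G (g : ℂ → ℂ) (z : ℂ) : ℂ := g z - g 0

lemma ip_sub (b x y : ℂ) : ip b (x - y) = ip b x - ip b y := by
  unfold ip; simp; ring

lemma ip_add (b x y : ℂ) : ip b (x + y) = ip b x + ip b y := by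
  unfold ip; simp; ring

lemma Ext.half (h : Ext F g) {z w : ℂ} (hzw : cr z w ≠ 0) :
    ∃ b : ℂ, ip b (G g w) = 0 ∧ ip b (G g z) ≠ 0 ∧ ip b (G g (z + w) - G g z) = 0 := by
  let β : ℂ := ⟨-w.im, w.re⟩
  have hβz : ip β z = - cr z w := by simp only [ip, β, cr]; ring
  have hβw : ip β w = 0 := by simp only [ip, β]; ring
  have hβ0 : ip β 0 = 0 := by simp [ip]
  have hβ : β ≠ 0 := by
    intro h0
    rw [h0] at hβz
    apply hzw
    have : ip (0 : ℂ) z = 0 := by simp [ip]
    linarith
  have hne : (0 : ℝ) ≠ ip β z := by rw [hβz]; exact (neg_ne_zero.2 hzw).symm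
  obtain ⟨b, hb, t', s', hts, ht, hs⟩ := h.parallel hβ hne
  have a0 := (ht 0).1 hβ0
  have aw := (ht w).1 hβw
  have az := (hs z).1 rfl
  have azw := (hs (z + w)).1 (by rw [ip_add, hβw, add_zero])
  refine ⟨b, ?_, ?_, ?_⟩
  · rw [G, ip_sub, a0, aw, sub_self]
  · rw [G, ip_sub, a0, az]
    exact sub_ne_zero.2 hts.symm
  · simp only [G, ip_sub, a0, az, azw]; ring

lemma det_aux {b c u v D : ℂ} (h1 : ip b v = 0) (h2 : ip b u ≠ 0) (h3 : ip b D = 0)
    (h4 : ip c u = 0) (h5 : ip c v ≠ 0) (h6 : ip c D = 0) : D = 0 := by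
  have hdet : cr b c ≠ 0 := by
    intro hd
    unfold ip at *
    unfold cr at hd
    have k1 : c.re * (b.re * u.re + b.im * u.im) = 0 := by
      linear_combination b.re * h4 - u.im * hd
    have k2 : c.im * (b.re * u.re + b.im * u.im) = 0 := by
      linear_combination b.im * h4 + u.re * hd
    have k3 := (mul_eq_zero.1 k1).resolve_right h2
    have k4 := (mul_eq_zero.1 k2).resolve_right h2
    apply h5
    rw [k3, k4]; ring
  unfold ip at *
  unfold cr at hdet
  have k1 : (b.re * c.im - b.im * c.re) * D.re = 0 := by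
    linear_combination c.im * h3 - b.im * h6
  have k2 : (b.re * c.im - b.im * c.re) * D.im = 0 := by
    linear_combination b.re * h6 - c.re * h3
  exact Complex.ext ((mul_eq_zero.1 k1).resolve_left hdet) ((mul_eq_zero.1 k2).resolve_left hdet)

lemma cr_comm' {z w : ℂ} (h : cr z w ≠ 0) : cr w z ≠ 0 := by
  unfold cr at *
  intro h2; apply h; linarith

lemma Ext.add_indep (h : Ext F g) {z w : ℂ} (hzw : cr z w ≠ 0) :
    G g (z + w) = G g z + G g w := by
  obtain ⟨b, b1, b2, b3⟩ := h.half hzw
  obtain ⟨c, c1, c2, c3⟩ := h.half (cr_comm' hzw)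
  have : G g (z + w) - G g z - G g w = 0 := by
    refine det_aux b1 b2 ?_ c1 c2 ?_
    · rw [ip_sub, b3, b1, sub_zero]
    · rw [add_comm w z] at c3
      have : G g (z + w) - G g z - G g w = (G g (z + w) - G g w) - G g z := by ring
      rw [this, ip_sub, c3, c1, sub_zero]
  linear_combination this

@[simp] lemma G_zero : G g 0 = 0 := by simp [G]

lemma cr_I_mul (z : ℂ) : cr z (I * z) = normSq z := by
  rw [normSq_apply]; simp [cr]

lemma Ext.neg (h : Ext F g) (z : ℂ) : G g (-z) = - G g z := by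
  rcases eq_or_ne z 0 with rfl | hz
  · simp
  · have hn : normSq z ≠ 0 := (normSq_pos.2 hz).ne'
    have h1 : cr z (-z + I * z) ≠ 0 := by
      have : cr z (-z + I * z) = normSq z := by
        rw [normSq_apply]; simp [cr]; ring
      rw [this]; exact hn
    have h2 : cr (-z) (I * z) ≠ 0 := by
      have : cr (-z) (I * z) = - normSq z := by
        rw [normSq_apply]; simp [cr]; ring
      rw [this]; exact neg_ne_zero.2 hn
    have e1 := h.add_indep h1
    have e2 := h.add_indep h2
    have e3 : z + (-z + I * z) = I * z := by ring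
    rw [e3, e2] at e1
    linear_combination (-1 : ℂ) * e1

lemma Ext.add (h : Ext F g) (z w : ℂ) : G g (z + w) = G g z + G g w := by
  rcases eq_or_ne z 0 with rfl | hz
  · simp
  rcases eq_or_ne w 0 with rfl | hw
  · simp
  rcases ne_or_eq (cr z w) 0 with hc | hc
  · exact h.add_indep hc
  rcases eq_or_ne (z + w) 0 with hzw | hzw
  · have : w = -z := by linear_combination hzw
    subst this
    rw [h.neg]; simp
  · have hn : normSq z ≠ 0 := (normSq_pos.2 hz).ne'
    have hnw : normSq w ≠ 0 := (normSq_pos.2 hw).ne'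
    have h1 : cr z (w + I * z) ≠ 0 := by
      have : cr z (w + I * z) = cr z w + normSq z := by
        rw [normSq_apply]; simp [cr]; ring
      rw [this, hc, zero_add]; exact hn
    have h2 : cr (z + w) (I * z) ≠ 0 := by
      intro h0
      apply hzw
      have k : (z + w) * conj z = 0 := by
        apply Complex.ext
        · simp only [cr, add_re, add_im, mul_re, mul_im, I_re, I_im, conj_re, conj_im, zero_re,
            zero_mul, one_mul, zero_sub, zero_add] at h0 ⊢
          linarith
        · simp only [cr, add_re, add_im, mul_re, mul_im, conj_re, conj_im, zero_im] at hc ⊢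
          linarith
      exact (mul_eq_zero.1 k).resolve_right (by simpa using hz)
    have h3 : cr w (I * z) ≠ 0 := by
      intro h0
      apply hw
      have k : w * conj z = 0 := by
        apply Complex.ext
        · simp only [cr, mul_re, mul_im, I_re, I_im, conj_re, conj_im, zero_re,
            zero_mul, one_mul, zero_sub, zero_add] at h0 ⊢
          linarith
        · simp only [cr, mul_re, mul_im, conj_re, conj_im, zero_im] at hc ⊢
          linarith
      exact (mul_eq_zero.1 k).resolve_right (by simpa using hz)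
    have e1 := h.add_indep h1
    have e2 := h.add_indep h2
    have e3 := h.add_indep h3
    have e4 : z + (w + I * z) = z + w + I * z := by ring
    rw [e4, e2, e3] at e1
    linear_combination e1

lemma Ext.circle (h : Ext F g) {r : ℝ} (hr : 0 < r) :
    ∃ ρ, ∀ z, normSq z = r → normSq (G g z) = ρ := by
  have hok : ok 1 (-r) 0 := by unfold ok; simp; exact hr
  obtain ⟨α, γ, β, -, hp⟩ := h.mob.fwd 1 (-r) 0 hok
  have hα : α ≠ 0 := by
    intro h0
    have := (hp ∞).2 (by rw [h.inf]; exact on_infty.2 h0)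
    simp at this
  have key : ∀ z, normSq z = r → Q α γ β (g z) = 0 := by
    intro z hz
    have := hp (z : OnePoint ℂ)
    rw [h.val, on_coe, on_coe] at this
    apply this.1
    simp [Q, ip, hz]
  refine ⟨-(normSq (g 0) + (2 * ip β (g 0) + γ) / α), ?_⟩
  intro z hz
  have k1 := key z hz
  have k2 := key (-z) (by rw [normSq_neg]; exact hz)
  have e1 : g z = G g z + g 0 := by simp [G]
  have e2 : g (-z) = - G g z + g 0 := by rw [← h.neg]; simp [G]
  rw [e1] at k1
  rw [e2] at k2
  simp only [Q, ip, normSq_apply, add_re, add_im, neg_re, neg_im] at k1 k2 ⊢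
  field_simp
  linear_combination (1 / 2 : ℝ) * k1 + (1 / 2 : ℝ) * k2

end

end V11258.CG
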