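import Pool.Agent.V11258.CG.Defs
import Pool.Agent.V11258.CG.Plane

/-! Geometry of the discs; the sphere points are recovered from the graph. -/

open Set Metric

namespace V11258.CG

section general
variable {d : ℕ}

lemma mem_disc {n : E d} {c : ℝ} {x : E d} :
    x ∈ closedBall (0 : E d) 1 ∩ hyp n c ↔ ‖x‖ ≤ 1 ∧ inner ℝ n x = c := by
  rw [mem_inter_iff, mem_closedBall_zero_iff]; rfl

lemma isDisc_iff {A : Set (E d)} : IsDisc d A ↔
    ∃ (n : E d) (c : ℝ), c ^ 2 < ‖n‖ ^ 2 ∧ A = closedBall 0 1 ∩ hyp n c := by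
  constructor
  · rintro ⟨n, c, hn, ⟨x, hx1, hx2⟩, rfl⟩
    refine ⟨n, c, ?_, rfl⟩
    rw [mem_ball_zero_iff] at hx2
    have hx1' : inner ℝ n x = c := hx1
    have h1 : |inner ℝ n x| ≤ ‖n‖ * ‖x‖ := abs_real_inner_le_norm n x
    rw [hx1'] at h1
    have hn' : 0 < ‖n‖ := norm_pos_iff.2 hn
    have h2 : |c| < ‖n‖ := lt_of_le_of_lt h1 (by nlinarith)
    rw [← sq_abs c]
    have := abs_nonneg c
    nlinarith
  · rintro ⟨n, c, h, rfl⟩
    have hn : 0 < ‖n‖ := by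
      rcases (norm_nonneg n).lt_or_eq with h' | h'
      · exact h'
      · rw [← h'] at h; nlinarith [sq_nonneg c]
    refine ⟨n, c, norm_pos_iff.1 hn, ⟨(c / ‖n‖ ^ 2) • n, ?_, ?_⟩, rfl⟩
    · show inner ℝ n ((c / ‖n‖ ^ 2) • n) = c
      rw [real_inner_smul_right, real_inner_self_eq_norm_sq]
      field_simp
    · rw [mem_ball_zero_iff, norm_smul, Real.norm_eq_abs, abs_div, abs_pow, abs_norm]
      have h2 : |c| < ‖n‖ := by
        apply lt_of_pow_lt_pow_left₀ 2 hn.le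
        rwa [sq_abs]
      rw [div_mul_eq_mul_div, div_lt_one (by positivity)]
      nlinarith

/-- From a point of the ball one reaches the sphere in any direction. -/
lemma reach {x v : E d} (hx : ‖x‖ ≤ 1) (hv : v ≠ 0) : ∃ t : ℝ, 0 ≤ t ∧ ‖x + t • v‖ = 1 := by
  have hv' : 0 < ‖v‖ := norm_pos_iff.2 hv
  have hT : (0 : ℝ) ≤ 2 / ‖v‖ := by positivity
  have hc : ContinuousOn (fun t : ℝ => ‖x + t • v‖) (Icc 0 (2 / ‖v‖)) := by fun_prop
  have h := intermediate_value_Icc hT hc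
  have h1 : (1 : ℝ) ∈ Icc (‖x + (0 : ℝ) • v‖) (‖x + (2 / ‖v‖) • v‖) := by
    constructor
    · simpa using hx
    · have h2 : ‖(2 / ‖v‖) • v‖ = 2 := by
        rw [norm_smul, Real.norm_of_nonneg hT]; field_simp
      have h3 : ‖(2 / ‖v‖) • v‖ - ‖x‖ ≤ ‖x + (2 / ‖v‖) • v‖ := by
        have := norm_sub_norm_le ((2 / ‖v‖) • v) (-x)
        rw [norm_neg, sub_neg_eq_add, add_comm _ x] at this
        exact this
      linarith
  obtain ⟨t, ht, ht'⟩ := h h1
  exact ⟨t, ht.1, ht'⟩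

lemma isClosed_disc {A : Set (E d)} (h : IsDisc d A) : IsClosed A := by
  obtain ⟨n, c, -, -, rfl⟩ := h
  refine isClosed_closedBall.inter ?_
  have : hyp n c = (fun x : E d => (inner ℝ n x : ℝ)) ⁻¹' {c} := rfl
  rw [this]
  exact isClosed_singleton.preimage (by fun_prop)

lemma convex_disc {A : Set (E d)} (h : IsDisc d A) : Convex ℝ A := by
  obtain ⟨n, c, -, -, rfl⟩ := h
  refine (convex_closedBall _ _).inter ?_
  intro x hx y hy a b ha hb hab
  have hx' : inner ℝ n x = c := hx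
  have hy' : inner ℝ n y = c := hy
  show inner ℝ n (a • x + b • y) = c
  rw [inner_add_right, real_inner_smul_right, real_inner_smul_right, hx', hy', ← add_mul, hab,
    one_mul]

lemma disc_nonempty {A : Set (E d)} (h : IsDisc d A) : A.Nonempty := by
  obtain ⟨n, c, -, ⟨x, hx, hx'⟩, rfl⟩ := h
  exact ⟨x, ball_subset_closedBall hx', hx⟩

end general

/-- A direction orthogonal to two vectors. -/
lemma exists_perp (n m : E 2) : ∃ v : E 2, v ≠ 0 ∧ inner ℝ n v = 0 ∧ inner ℝ m v = 0 := by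
  let f : E 2 →ₗ[ℝ] ℝ × ℝ := LinearMap.prod (innerₛₗ ℝ n) (innerₛₗ ℝ m)
  have hf : f.ker ≠ ⊥ := LinearMap.ker_ne_bot_of_finrank_lt (by simp)
  obtain ⟨v, hv, hv0⟩ := Submodule.exists_mem_ne_zero_of_ne_bot hf
  have h : f v = 0 := hv
  exact ⟨v, hv0, congrArg Prod.fst h, congrArg Prod.snd h⟩

/-- Meeting discs share a point of the sphere. -/
lemma meet_sphere {A B : Set (E 2)} (hA : IsDisc 2 A) (hB : IsDisc 2 B) (h : (A ∩ B).Nonempty) :
    ∃ p, ‖p‖ = 1 ∧ p ∈ A ∧ p ∈ B := by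
  obtain ⟨n, c, -, -, rfl⟩ := hA
  obtain ⟨m, e, -, -, rfl⟩ := hB
  obtain ⟨x, hx1, hx2⟩ := h
  rw [mem_disc] at hx1 hx2
  obtain ⟨v, hv, h1, h2⟩ := exists_perp n m
  obtain ⟨t, -, ht⟩ := reach hx1.1 hv
  refine ⟨x + t • v, ht, ?_, ?_⟩ <;> rw [mem_disc]
  · refine ⟨ht.le, ?_⟩
    rw [inner_add_right, real_inner_smul_right, h1, mul_zero, add_zero, hx1.2]
  · refine ⟨ht.le, ?_⟩
    rw [inner_add_right, real_inner_smul_right, h2, mul_zero, add_zero, hx2.2]

lemma subset_of_sphere {A B : Set (E 2)} (hA : IsDisc 2 A) (hB : IsDisc 2 B)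
    (h : ∀ p, ‖p‖ = 1 → p ∈ A → p ∈ B) : A ⊆ B := by
  obtain ⟨n, c, -, -, rfl⟩ := hA
  obtain ⟨m, e, -, -, rfl⟩ := hB
  intro x hx
  rw [mem_disc] at hx
  obtain ⟨v, hv, h1, -⟩ := exists_perp n n
  obtain ⟨t, ht0, ht⟩ := reach hx.1 hv
  obtain ⟨s, hs0, hs⟩ := reach hx.1 (neg_ne_zero.2 hv)
  have a1 := h _ ht (mem_disc.2 ⟨ht.le, by
    rw [inner_add_right, real_inner_smul_right, h1, mul_zero, add_zero, hx.2]⟩)
  have a2 := h _ hs (mem_disc.2 ⟨hs.le, by
    rw [inner_add_right, real_inner_smul_right, inner_neg_right, h1, neg_zero, mul_zero, add_zero,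
      hx.2]⟩)
  rw [mem_disc] at a1 a2
  have b1 := a1.2
  have b2 := a2.2
  rw [inner_add_right, real_inner_smul_right] at b1 b2
  rw [inner_neg_right] at b2
  rw [mem_disc]
  refine ⟨hx.1, ?_⟩
  rcases ht0.lt_or_eq with h' | h'
  · have h3 : (t + s) * inner ℝ m v = 0 := by linarith
    rcases mul_eq_zero.1 h3 with h4 | h4
    · linarith
    · rw [h4, mul_zero, add_zero] at b1; exact b1
  · rw [← h'] at b1; simpa using b1

lemma eq_of_sphere {A B : Vtx 2} (h : ∀ p, ‖p‖ = 1 → (p ∈ A.1 ↔ p ∈ B.1)) : A = B :=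
  Subtype.ext ((subset_of_sphere A.2 B.2 fun p hp => (h p hp).1).antisymm
    (subset_of_sphere B.2 A.2 fun p hp => (h p hp).2))

/-- Small discs through a point of the sphere. -/
lemma small_disc {p : E 2} (hp : ‖p‖ = 1) {ε : ℝ} (hε : 0 < ε) :
    ∃ A : Vtx 2, p ∈ A.1 ∧ A.1 ⊆ ball p ε := by
  obtain ⟨q', hq0, hq1, -⟩ := exists_perp p p
  have hq0' : 0 < ‖q'‖ := norm_pos_iff.2 hq0
  obtain ⟨q, hq, hpq⟩ : ∃ q : E 2, ‖q‖ = 1 ∧ inner ℝ p q = 0 :=
    ⟨(‖q'‖⁻¹) • q', by rw [norm_smul, norm_inv, norm_norm]; field_simp,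
      by rw [real_inner_smul_right, hq1, mul_zero]⟩
  obtain ⟨δ, hδ0, hδ1, hδ2⟩ : ∃ δ : ℝ, 0 < δ ∧ δ < 1 ∧ 2 * δ < ε :=
    ⟨min (1 / 2) (ε / 4), by positivity, lt_of_le_of_lt (min_le_left _ _) (by norm_num),
      by have := min_le_right (1 / 2) (ε / 4); linarith⟩
  set s : ℝ := √(1 - δ ^ 2) with hs
  have hs2 : s ^ 2 = 1 - δ ^ 2 := Real.sq_sqrt (by nlinarith)
  have hs0 : 0 ≤ s := Real.sqrt_nonneg _
  have hs1 : s < 1 := by nlinarith
  have hpp : inner ℝ p p = (1 : ℝ) := by rw [real_inner_self_eq_norm_sq, hp]; norm_num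
  have hqq : inner ℝ q q = (1 : ℝ) := by rw [real_inner_self_eq_norm_sq, hq]; norm_num
  have hqp : inner ℝ q p = (0 : ℝ) := by rw [real_inner_comm]; exact hpq
  have hn : ‖s • p + δ • q‖ ^ 2 = 1 := by
    rw [← real_inner_self_eq_norm_sq, inner_add_left, inner_add_right, inner_add_right]
    simp only [real_inner_smul_left, real_inner_smul_right, hpp, hqq, hpq, hqp]
    nlinarith
  have hn1 : ‖s • p + δ • q‖ = 1 := by
    have := norm_nonneg (s • p + δ • q); nlinarith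
  refine ⟨⟨_, isDisc_iff.2 ⟨s • p + δ • q, s, by rw [hn]; nlinarith, rfl⟩⟩, ?_, ?_⟩
  · show p ∈ closedBall 0 1 ∩ hyp _ _
    rw [mem_disc]
    refine ⟨hp.le, ?_⟩
    rw [inner_add_left, real_inner_smul_left, real_inner_smul_left, hpp, hqp]; ring
  · intro x hx
    have hx' : x ∈ closedBall 0 1 ∩ hyp (s • p + δ • q) s := hx
    rw [mem_disc] at hx'
    obtain ⟨hx1, hx2⟩ := hx'
    -- `x` and `p` are both within `δ` of the centre `s • n`
    have key : ∀ y : E 2, ‖y‖ ≤ 1 → inner ℝ (s • p + δ • q) y = s →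
        ‖y - s • (s • p + δ • q)‖ ≤ δ := by
      intro y hy1 hy2
      have h1 : ‖y - s • (s • p + δ • q)‖ ^ 2 = ‖y‖ ^ 2 - s ^ 2 := by
        rw [norm_sub_sq_real, real_inner_smul_right, real_inner_comm, hy2, norm_smul, hn1,
          Real.norm_of_nonneg hs0]
        ring
      have h2 : ‖y‖ ^ 2 ≤ 1 := by have := norm_nonneg y; nlinarith
      apply le_of_sq_le_sq _ hδ0.le
      rw [h1]; linarith
    have k1 := key x hx1 hx2
    have k2 := key p hp.le (by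
      rw [inner_add_left, real_inner_smul_left, real_inner_smul_left, hpp, hqp]; ring)
    rw [mem_ball, dist_eq_norm]
    have : x - p = (x - s • (s • p + δ • q)) - (p - s • (s • p + δ • q)) := by abel
    rw [this]
    calc _ ≤ ‖x - s • (s • p + δ • q)‖ + ‖p - s • (s • p + δ • q)‖ := norm_sub_le _ _
      _ < ε := by linarith

end V11258.CG
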