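import Pool.Agent.V11258.CG.Plane

/-! Maps fixing `∞` are similarities. -/

open Complex Set OnePoint
open scoped ComplexConjugate OnePoint

namespace V11258.CG

lemma decomp {z : ℂ} (hz : normSq z ≤ 4) : ∃ u v : ℂ, normSq u = 1 ∧ normSq v = 1 ∧ z = u + v := by
  rcases eq_or_ne z 0 with rfl | h0
  · exact ⟨1, -1, by simp, by simp, by simp⟩
  · have hn : 0 < normSq z := normSq_pos.2 h0
    have hs : 0 ≤ 1 / normSq z - 1 / 4 := by
      rw [sub_nonneg, div_le_div_iff₀ (by norm_num) hn]; linarith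
    set s : ℝ := Real.sqrt (1 / normSq z - 1 / 4) with hsdef
    have hss : s * s = 1 / normSq z - 1 / 4 := Real.mul_self_sqrt hs
    have key : ∀ t : ℝ, t * t = s * s → normSq (z * (⟨1 / 2, t⟩ : ℂ)) = 1 := by
      intro t ht
      have h1 : normSq (⟨1 / 2, t⟩ : ℂ) = 1 / normSq z := by
        rw [normSq_mk, ht, hss]; ring
      rw [normSq_mul, h1, mul_one_div_cancel hn.ne']
    refine ⟨z * ⟨1 / 2, s⟩, z * ⟨1 / 2, -s⟩, key s rfl, key (-s) (by ring), ?_⟩
    rw [← mul_add]
    have : (⟨1 / 2, s⟩ + ⟨1 / 2, -s⟩ : ℂ) = 1 := by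
      apply Complex.ext
      · simp; norm_num
      · simp
    rw [this, mul_one]

variable {F : OnePoint ℂ → OnePoint ℂ} {g : ℂ → ℂ}

/-- The additive map. -/
def Ext.hom (h : Ext F g) : ℂ →+ ℂ := AddMonoidHom.mk' (G g) h.add

lemma Ext.hom_apply (h : Ext F g) (z : ℂ) : h.hom z = G g z := rfl

lemma Ext.bound (h : Ext F g) : ∃ K, 0 < K ∧ ∀ z : ℂ, ‖z‖ ≤ 1 → ‖G g z‖ ≤ K := by
  obtain ⟨ρ, hρ⟩ := h.circle (r := 1) one_pos
  have hu : ∀ u, normSq u = 1 → ‖G g u‖ ≤ Real.sqrt ρ := by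
    intro u hu
    apply Real.le_sqrt_of_sq_le
    rw [← hρ u hu, normSq_eq_norm_sq]
  refine ⟨Real.sqrt ρ + Real.sqrt ρ + 1, by positivity, fun z hz => ?_⟩
  have hz4 : normSq z ≤ 4 := by
    rw [normSq_eq_norm_sq]
    nlinarith [norm_nonneg z]
  obtain ⟨u, v, h1, h2, rfl⟩ := decomp hz4
  rw [h.add]
  refine (norm_add_le _ _).trans ?_
  have := hu u h1
  have := hu v h2
  linarith

lemma Ext.cont (h : Ext F g) : Continuous h.hom := by
  apply continuous_of_continuousAt_zero
  rw [Metric.continuousAt_iff]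
  intro ε hε
  obtain ⟨K, hK, hb⟩ := h.bound
  obtain ⟨n, hn⟩ := exists_nat_gt (K / ε)
  have hn0 : (0 : ℝ) < n := (div_pos hK hε).trans hn
  refine ⟨1 / n, by positivity, fun {z} hz => ?_⟩
  rw [dist_zero_right] at hz
  rw [map_zero, dist_zero_right, h.hom_apply]
  have h1 : ‖(n • z : ℂ)‖ ≤ 1 := by
    rw [nsmul_eq_mul, norm_mul, Complex.norm_natCast]
    rw [lt_div_iff₀ hn0] at hz
    linarith
  have h2 := hb _ h1
  rw [← h.hom_apply, map_nsmul, nsmul_eq_mul, norm_mul, Complex.norm_natCast, h.hom_apply] at h2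
  rw [div_lt_iff₀ hε] at hn
  by_contra hcon
  push Not at hcon
  have : (n : ℝ) * ε ≤ n * ‖G g z‖ := by gcongr
  linarith

lemma Ext.linear (h : Ext F g) (z : ℂ) : G g z = z.re * G g 1 + z.im * G g I := by
  let L := h.hom.toRealLinearMap h.cont
  have hL : ∀ z, G g z = L z := fun z => rfl
  have h1 : z = z.re • (1 : ℂ) + z.im • I := by
    apply Complex.ext <;> simp
  conv_lhs => rw [h1]
  rw [hL, map_add, _root_.map_smul, _root_.map_smul, ← hL, ← hL]
  simp

lemma Ext.final (h : Ext F g) : ∃ a : ℂ, a ≠ 0 ∧ ((∀ z, G g z = a * z) ∨ ∀ z, G g z = a * conj z) := by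
  obtain ⟨ρ, hρ⟩ := h.circle (r := 1) one_pos
  obtain ⟨ρ2, hρ2⟩ := h.circle (r := 2) two_pos
  set p := G g 1 with hp
  set q := G g I with hq
  have hp0 : p ≠ 0 := by
    intro h0
    have : g 1 = g 0 := by
      rw [hp] at h0
      exact sub_eq_zero.1 h0
    exact one_ne_zero (h.inj this)
  have e1 : normSq p = normSq q := by
    rw [hp, hq, hρ 1 (by simp), hρ I (by simp)]
  have e2 : normSq (p + q) = normSq (p - q) := by
    have k1 : G g (1 + I) = p + q := h.add 1 I
    have k2 : G g (1 + -I) = p - q := by rw [h.add, h.neg, sub_eq_add_neg]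
    rw [← k1, ← k2, hρ2 _ (by simp [normSq_apply]; norm_num), hρ2 _ (by simp [normSq_apply]; norm_num)]
  have hn : 0 < p.re * p.re + p.im * p.im := by
    rw [← normSq_apply]; exact normSq_pos.2 hp0
  simp only [normSq_apply, add_re, add_im, sub_re, sub_im] at e1 e2
  set lam : ℝ := (p.re * q.im - p.im * q.re) / (p.re * p.re + p.im * p.im) with hlam
  have hip : p.re * q.re + p.im * q.im = 0 := by linarith
  have f1 : q.re = -lam * p.im := by
    rw [hlam, neg_mul, div_mul_eq_mul_div, ← neg_div, eq_div_iff hn.ne']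
    linear_combination p.re * hip
  have f2 : q.im = lam * p.re := by
    rw [hlam, div_mul_eq_mul_div, eq_div_iff hn.ne']
    linear_combination p.im * hip
  have f3 : lam ^ 2 = 1 := by
    rw [f1, f2] at e1
    have : (lam ^ 2 - 1) * (p.re * p.re + p.im * p.im) = 0 := by linear_combination -e1
    have := (mul_eq_zero.1 this).resolve_right hn.ne'
    linarith
  refine ⟨p, hp0, ?_⟩
  have f4 : lam = 1 ∨ lam = -1 := by
    have : (lam - 1) * (lam + 1) = 0 := by linear_combination f3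
    rcases mul_eq_zero.1 this with h | h
    · left; linarith
    · right; linarith
  rcases f4 with h1 | h1
  · left
    intro z
    have hq2 : q = I * p := by
      apply Complex.ext
      · rw [f1, h1]; simp
      · rw [f2, h1]; simp
    rw [h.linear z, ← hp, ← hq, hq2]
    conv_rhs => rw [← re_add_im z]
    ring
  · right
    intro z
    have hq2 : q = -(I * p) := by
      apply Complex.ext
      · rw [f1, h1]; simp
      · rw [f2, h1]; simp
    rw [h.linear z, ← hp, ← hq, hq2]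
    have : conj z = z.re - z.im * I := by
      apply Complex.ext <;> simp
    rw [this]
    ring

/-- Circle preserving maps fixing `∞` are similarities. -/
theorem sim (hF : Mob F) (h : F ∞ = ∞) : ∃ a b : ℂ, a ≠ 0 ∧
    ((∀ z : ℂ, F z = ((a * z + b : ℂ) : OnePoint ℂ)) ∨
      (∀ z : ℂ, F z = ((a * conj z + b : ℂ) : OnePoint ℂ))) := by
  obtain ⟨g, hg⟩ := exists_ext hF h
  obtain ⟨a, ha, h1 | h1⟩ := hg.final
  · refine ⟨a, g 0, ha, Or.inl fun z => ?_⟩
    rw [hg.val, ← h1 z]; simp [G]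
  · refine ⟨a, g 0, ha, Or.inr fun z => ?_⟩
    rw [hg.val, ← h1 z]; simp [G]

end V11258.CG
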